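import Mathlib
import Pool.Agent.TH282.LF.IntClass

/-!
# Linear forms with full image and small image: abelian groups
-/

set_option autoImplicit false

open Finset H183R3.LF

/-- Abelian groups (`R = ℤ`), `F` with coefficients `f i` equal to `1` or `-1` in `h ≥ 1` variables,
`G` an arbitrary form in `l < 3 h` variables. Property (S) holds if and only if there are no pairwise
disjoint sets `J i`, `J' i` of variables of `G` and coprime integers `c`, `x` such that
`∑ j ∈ J i, g j = c * f i` and `∑ j ∈ J' i, g j ≡ x * f i` modulo `c` for all `i`. -/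
theorem Pool.Agent.Results.MP_0c4eaf_nt.IntegersFewVariables.result {h l : ℕ}
    (f : Fin h → ℤ) (g : Fin l → ℤ) (hh : 0 < h) (hl : 0 < l)
    (hf : ∀ i, f i = 1 ∨ f i = -1) (hlt : l < 3 * h) :
    PropertyS ℤ f g ↔ ¬ ∃ (J J' : Fin h → Finset (Fin l)) (c x : ℤ),
      (∀ i i', i ≠ i' → Disjoint (J i) (J i')) ∧ (∀ i i', i ≠ i' → Disjoint (J' i) (J' i')) ∧
      (∀ i i', Disjoint (J i) (J' i')) ∧ IsCoprime c x ∧
      (∀ i, ∑ j ∈ J i, g j = c * f i) ∧ ∀ i, c ∣ ∑ j ∈ J' i, g j - x * f i :=
  Pool.Agent.TH282.LF.classification_int f g hh hl hf hlt
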