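import Mathlib
import Pool.Agent.TH282.LF.Dual

/-!
# Linear forms with full image and small image: rings of prime characteristic
-/

set_option autoImplicit false

open Finset H183R3.LF

universe u

/-- Let `f`, `g` be the coefficient vectors of the linear forms `F` (in `h ≥ 1` variables) and `G`
(in `l ≥ 1` variables). A pattern `P` gives every variable of `G` a slot (a variable of `F`) and a
class; the class vector of the class `t` is `i ↦ ∑ (P j = (i, t)) g j`.
(1) Commutative rings: if (S) holds, then for every pattern there is a proper ideal `I` of finite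
index, with `I + (f) = R`, such that every class vector which is a multiple of `f` modulo `I` is
zero modulo `I`.
(2) Commutative rings of prime characteristic: (S) holds if and only if every pattern has such an
ideal.
(3) All rings: (S) holds if and only if for every pattern there are a finite module `U`, for every
class `t` functions `a t i : U → U` with `∑ i, f i • a t i u = u`, and a point `z` of `U` that is not
of the form `∑ j, g j • a (P j).2 (P j).1 (u (P j).2)`. -/
theorem Pool.Agent.Results.MP_0c4eaf_nt.PrimeCharacteristic.result :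
    (∀ (R : Type u) [CommRing R] (h l : ℕ) (f : Fin h → R) (g : Fin l → R), 0 < h → 0 < l →
      PropertyS R f g → ∀ P : Fin l → Fin h × Fin l,
        ∃ I : Ideal R, I ≠ ⊤ ∧ Finite (R ⧸ I) ∧ I ⊔ Ideal.span (Set.range f) = ⊤ ∧
          ∀ t : Fin l,
            (∃ x : R, ∀ i, ∑ j ∈ Finset.univ.filter (fun j => P j = (i, t)), g j - x * f i ∈ I) →
              ∀ i, ∑ j ∈ Finset.univ.filter (fun j => P j = (i, t)), g j ∈ I) ∧
    (∀ (R : Type u) [CommRing R] (p : ℕ) (_ : p.Prime) [CharP R p] (h l : ℕ) (f : Fin h → R)
      (g : Fin l → R), 0 < h → 0 < l →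
      (PropertyS R f g ↔ ∀ P : Fin l → Fin h × Fin l,
        ∃ I : Ideal R, I ≠ ⊤ ∧ Finite (R ⧸ I) ∧ I ⊔ Ideal.span (Set.range f) = ⊤ ∧
          ∀ t : Fin l,
            (∃ x : R, ∀ i, ∑ j ∈ Finset.univ.filter (fun j => P j = (i, t)), g j - x * f i ∈ I) →
              ∀ i, ∑ j ∈ Finset.univ.filter (fun j => P j = (i, t)), g j ∈ I)) ∧
    (∀ (R : Type u) [Ring R] (h l : ℕ) (f : Fin h → R) (g : Fin l → R), 0 < h → 0 < l →
      (PropertyS R f g ↔ ∀ P : Fin l → Fin h × Fin l,
        ∃ (U : Type u) (_ : AddCommGroup U) (_ : Module R U) (_ : Finite U)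
          (a : Fin l → Fin h → U → U) (z : U), (∀ t u, ∑ i, f i • a t i u = u) ∧
            ∀ u : Fin l → U, ∑ j, g j • a (P j).2 (P j).1 (u (P j).2) ≠ z)) := by
  refine ⟨?_, ?_, ?_⟩
  · intro R _ h l f g hh hl hS P
    exact Pool.Agent.TH282.LF.closed_of_avoidable f g hl P
      ((Pool.Agent.TH282.LF.propertyS_iff R f g hh hl).1 hS P)
  · intro R _ p hp _ h l f g hh hl
    have : Fact p.Prime := ⟨hp⟩
    constructor
    · intro hS P
      exact Pool.Agent.TH282.LF.closed_of_avoidable f g hl P
        ((Pool.Agent.TH282.LF.propertyS_iff R f g hh hl).1 hS P)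
    · intro H
      rw [Pool.Agent.TH282.LF.propertyS_iff R f g hh hl]
      intro P
      obtain ⟨I, h1, h2, h3, h4⟩ := H P
      exact Pool.Agent.TH282.LF.avoidable_of_closed p f g P I h1 h2 h3 h4
  · intro R _ h l f g hh hl
    exact Pool.Agent.TH282.LF.propertyS_iff R f g hh hl
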