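import Mathlib
import Pool.Agent.TH282.LF.ResFinite

/-!
# Linear forms with full image and small image: residually finite commutative rings
-/

set_option autoImplicit false

open Finset H183R3.LF

universe u

/-- Let `R` be a nonzero residually finite commutative ring, `F` a linear form in `h ≥ 1` variables
with unit coefficients `f i`, and `G` any form in `l < 2 h` variables. Property (S) holds if and only
if there are no pairwise disjoint sets `J i` of variables of `G` and `c : R`, lying in no proper ideal
of finite index, such that `∑ j ∈ J i, g j = c * f i` for all `i`. -/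
theorem Pool.Agent.Results.MP_0c4eaf_nt.ResiduallyFiniteRings.result
    (R : Type u) [CommRing R] [Nontrivial R]
    (hres : ∀ r : R, r ≠ 0 → ∃ I : Ideal R, Finite (R ⧸ I) ∧ r ∉ I)
    {h l : ℕ} (f : Fin h → R) (g : Fin l → R) (hh : 0 < h) (hl : 0 < l)
    (hf : ∀ i, IsUnit (f i)) (hlt : l < 2 * h) :
    PropertyS R f g ↔ ¬ ∃ (J : Fin h → Finset (Fin l)) (c : R),
      (∀ i i', i ≠ i' → Disjoint (J i) (J i')) ∧ (∀ i, ∑ j ∈ J i, g j = c * f i) ∧
      ∀ I : Ideal R, I ≠ ⊤ → Finite (R ⧸ I) → c ∉ I :=
  Pool.Agent.TH282.LF.classification_resfinite hres f g hh hl hf hlt
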